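import Pool.Agent.Helper53.FM.St.Stubs
import Pool.Agent.Helper53.WR.Range
import Pool.Agent.Helper23.WR.C1
import Pool.Agent.Helper71.WR.C2
import Pool.Agent.Helper7.WR.C3
import Pool.Agent.Helper12.WR.C4
import Pool.Agent.Helper74.FB.B1
import Pool.Agent.Helper39.FB.B3

set_option autoImplicit false

/-!
# FM-B5: one world, numerical hypotheses
-/

namespace Pool.Agent.Helper38.FM

open Finset
open Pool.Agent.Helper3.Thin (dig und off Lab GoodSet exists_goodSet)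
open Pool.Agent.Helper53.WR
open Pool.Agent.Helper48.FB (win crossF Cs WinLe Fs Dk LR zR dens)
open Pool.Agent.Helper53.FM

/-- A larger top set gives a larger world. -/
theorem world_mono {q : ℕ} (Γ : Finset (ZMod q × ZMod q)) {T T' : Finset ℕ} (hTT : T' ⊆ T)
    (S : ℕ) (τ : ZMod q × ZMod q → ZMod q × ZMod q)
    (σ : (ZMod q × ZMod q) × (ZMod q × ZMod q) → ℕ) :
    World Γ T' S τ σ ⊆ World Γ T S τ σ := by
  unfold World Ind
  exact Finset.image_subset_image (Finset.product_subset_product le_rfl hTT)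

/-- The largest window of length `S` starting at `z` or later. -/
def Vmax (T : Finset ℕ) (S z : ℕ) : ℕ :=
  ((range (T.sup id + 2)).filter (fun z' => z ≤ z')).sup (fun z' => (win T z' S).card)

theorem win_le_Vmax (T : Finset ℕ) (S z z' : ℕ) (h : z ≤ z') : (win T z' S).card ≤ Vmax T S z := by
  by_cases hz : z' < T.sup id + 2
  · exact Finset.le_sup (f := fun z' => (win T z' S).card)
      (mem_filter.mpr ⟨mem_range.mpr hz, h⟩)
  · have : win T z' S = ∅ := by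
      rw [win, filter_eq_empty_iff]
      intro x hx hx2
      have : x ≤ T.sup id := Finset.le_sup (f := id) hx
      omega
    rw [this, card_empty]
    exact Nat.zero_le _

theorem Vmax_le (T : Finset ℕ) (S z W : ℕ) (h : ∀ z', z ≤ z' → (win T z' S).card ≤ W) :
    Vmax T S z ≤ W := by
  apply Finset.sup_le
  intro z' hz'
  exact h z' (mem_filter.mp hz').2

theorem Vmax_anti (T : Finset ℕ) (S : ℕ) : Antitone (Vmax T S) := by
  intro z z' hz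
  exact Vmax_le T S z' _ (fun z'' h => win_le_Vmax T S z z'' (hz.trans h))

/-- FM-B5 (one world, numerical hypotheses). -/
theorem world_exists3 {q : ℕ} [Fact q.Prime] (hq : 16 < q) (T O : Finset ℕ) (T' : ℕ → Finset ℕ)
    (hTT : ∀ i, T' i ⊆ T) (S Y H D x N yS L : ℕ) (t0 W : ℕ → ℕ) (hS : 0 < S) (Mod : Finset ℕ)
    (hMod : ∀ m ∈ Mod, 0 < m ∧ Nat.Coprime q m) (hTm : ∀ m ∈ Mod, ∀ t ∈ T, t < m)
    (hTY : ∀ t ∈ T, t < Y) (hOS : ∀ o ∈ O, o < q ^ 4 * S)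
    (hO : ∀ r, (O.filter (fun o => o % q ^ 2 = r)).card ≤ H)
    (hD : ∀ r, (O.filter (fun o => o % q ^ 4 = r)).card ≤ D)
    (hx : (2 * (q : ℝ) ^ 4 + ∑ m ∈ Mod, (m : ℝ)) * 2 ^ 13 < 2 ^ x)
    (hW : ∀ n < N, ∀ z, n / q ^ 4 ≤ z + 514 + 3 * S → (win T z S).card ≤ W n)
    (AX : ℕ → ℝ) (hAX : ∀ n < N, 1 ≤ AX n)
    (hX : ∀ n < N, (N : ℝ) * 4096 * (Real.exp (AX n * ((x : ℝ) * H * W n / S)) / AX n ^ t0 n)
      < 1 / 8)
    (AM : ℕ → ℝ) (hAM : ∀ m ∈ Mod, 1 ≤ AM m) (y : ℕ → ℕ)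
    (hY : ∑ m ∈ Mod, (m : ℝ) * (Real.exp (AM m *
      ((x : ℝ) * (T.card * ((q : ℝ) ^ 2 / m + 1 / S)))) / AM m ^ y m) < 1 / 2)
    (AS : ℝ) (hAS : 1 ≤ AS)
    (hSS : (S : ℝ) * (Real.exp (AS * (9 * (q : ℝ) ^ 2 / S)) / AS ^ yS) < 1 / 4)
    (hL : (q : ℝ) ^ 4 * (2 * S + Y) * Real.exp (-(L : ℝ)) < 1 / 8) :
    ∃ (A : Finset ℕ) (A' : ℕ → Finset ℕ), (∀ i, A' i ⊆ A) ∧
      (∀ b ∈ A, q ^ 4 * S ≤ b ∧ b < q ^ 4 * (514 + 2 * S + Y)) ∧
      (∀ i f, (∀ n, repF (T' i) n ≤ f) → ∀ n, repF (A' i) n ≤ 4096 ^ 2 * 2592 * f) ∧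
      (∀ n g, (∀ m, n / q ^ 4 ≤ m + 1028 + 4 * S → m ≤ n / q ^ 4 → repF T m ≤ g) →
        repF A n ≤ 4096 ^ 2 * 2592 * g) ∧
      (∀ n c, 9 + 8 * S ≤ n / q ^ 4 →
        (∀ m : ℕ, n / q ^ 4 ≤ m + 4 + 4 * S → m ≤ n / q ^ 4 →
          ∃ t ∈ T, ∃ t' ∈ T, t + t' = m ∧ m ≤ c * t ∧ m ≤ c * t') →
        ∃ x ∈ A, ∃ y ∈ A, x + y = n ∧ n ≤ 2 * c * x ∧ n ≤ 2 * c * y) ∧
      (∀ i n c, 9 + 8 * S ≤ n / q ^ 4 →
        (∀ m : ℕ, n / q ^ 4 ≤ m + 4 + 4 * S → m ≤ n / q ^ 4 →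
          ∃ t ∈ T' i, ∃ t' ∈ T' i, t + t' = m ∧ m ≤ c * t ∧ m ≤ c * t') →
        ∃ x ∈ A' i, ∃ y ∈ A' i, x + y = n ∧ n ≤ 2 * c * x ∧ n ≤ 2 * c * y) ∧
      (∀ m ∈ Mod, ∀ r, (A.filter (fun b => b % m = r)).card ≤ 4096 * y m) ∧
      (∀ n < N, (crossF A O n).card ≤ 4096 * (t0 n * D)) ∧
      (∀ y h W, h ≤ q ^ 4 → (∀ z, y / q ^ 4 ≤ z + 514 + 2 * S → (win T z S).card ≤ W) →
        (win A y h).card * S ≤ 4096 * (2 * (3 * (x * (h / q ^ 2 + 2) * W) + L * S))) ∧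
      (∀ y h W, (∀ z, y / q ^ 4 ≤ z + 514 + 2 * S → (win T z S).card ≤ W) →
        (win A y h).card ≤ 4096 * ((h / q ^ 4 + 2) * yS * W)) := by
  classical
  obtain ⟨Γ, hΓ⟩ := exists_goodSet q hq
  have hcard : Γ.card ≤ 3 * q := by
    have := hΓ.card_le
    rwa [ZMod.card] at this
  obtain ⟨τ, hτ1, hτ2, hτ3⟩ :=
    Helper74.FB.tau_select2 Γ hcard T O S hS H x Mod hMod hO hx
  have hX' : ∀ n < N, (N : ℝ) * 4096 * (Real.exp (AX n *
      ((x : ℝ) * H * Vmax T S (n / q ^ 4 - 514 - 3 * S) / S)) / AX n ^ t0 n) < 1 / 8 := by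
    intro n hn
    refine lt_of_le_of_lt ?_ (hX n hn)
    have hV : Vmax T S (n / q ^ 4 - 514 - 3 * S) ≤ W n :=
      Vmax_le T S _ _ (fun z hz => hW n hn z (by omega))
    have hV' : ((Vmax T S (n / q ^ 4 - 514 - 3 * S) : ℕ) : ℝ) ≤ W n := by exact_mod_cast hV
    have hA0 : 0 ≤ AX n := by linarith [hAX n hn]
    gcongr
  obtain ⟨σ, hσ, hσ1, hσ2, hσ3, hσ4⟩ := Helper53.FM.St.sigma_select3 Γ hcard T O S hS x H N yS L Y
    t0 (Vmax T S) Mod (fun m hm => (hMod m hm).1) hTY hOS τ (fun z z' h => win_le_Vmax T S z z' h)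
    hτ1 hτ2 hτ3 AX hAX hX' AM hAM y hY AS hAS hSS hL
  refine ⟨World Γ T S τ σ, fun i => World Γ (T' i) S τ σ, fun i => world_mono Γ (hTT i) S τ σ,
    world_range Γ T S Y τ σ hσ hTY, ?_, ?_, ?_, ?_, ?_, ?_, ?_, ?_⟩
  · exact fun i f hf n => Helper23.WR.world_self hΓ (T' i) S f τ σ hf n
  · exact fun n g hg => Helper39.FB.world_self2 hΓ T S g τ σ hσ n hg
  · exact fun n c h1 h2 => Helper53.FM.St.world_cover_bal hΓ T S c τ σ hσ n h1 h2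
  · exact fun i n c h1 h2 => Helper53.FM.St.world_cover_bal hΓ (T' i) S c τ σ hσ n h1 h2
  · intro m hm r
    exact Helper7.WR.world_residue Γ T S m (y m) (hMod m hm).1 (hMod m hm).2 (hTm m hm) τ σ
      (fun r => (hσ2 m hm r).le) r
  · intro n hn
    exact Helper12.WR.world_cross Γ T O S D (t0 n) n τ σ hD (fun ε => (hσ1 n hn ε).le)
  · intro y h W' hh hW'
    have h1 := Helper53.FM.St.world_win_short Γ T S x L (Vmax T S) (Vmax_anti T S) τ σ hσ hσ4 y h hh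
    have h2 : Vmax T S (y / q ^ 4 - 514 - 2 * S) ≤ W' :=
      Vmax_le T S _ _ (fun z hz => hW' z (by omega))
    refine h1.trans ?_
    gcongr
  · intro y h W' hW'
    exact Helper53.FM.St.world_win_long Γ T S yS W' τ σ hσ hσ3 y h hW'

end Pool.Agent.Helper38.FM
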