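import Pool.Agent.Helper53.FM.Defs
import Pool.Agent.Helper53.WR.Numeric
import Pool.Agent.Helper61.FB.MeanW

/-!
# FM-A6, A7, A8: expected numbers of sums of the filler with older elements and with the world
-/

set_option autoImplicit false

namespace Pool.Agent.Helper38.FM

open Finset
open Pool.Agent.Helper53.WR
open Pool.Agent.Helper48.FB (win crossF Cs WinLe Fs Dk LR zR dens)
open Pool.Agent.Helper53.FM
open Pool.Agent.Helper61.FB (sum_pow_half dens_le_of_log)

/-- Numerics of `mean_O`. -/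
theorem num_O (M : ℕ) {C A L : ℝ} (hC : 0 ≤ C) (hA : 0 ≤ A) (hL0 : 0 ≤ L) (hL : L ≤ 5 * A)
    (h : C ^ 2 ≤ 2 ^ (2 * (M + 12) + 1) * (4 * 2 ^ 64 * A)) :
    C * √L ≤ 2 ^ (M + 12) * 2 ^ 35 * A := by
  rw [← Real.sqrt_sq hC, ← Real.sqrt_mul (by positivity)]
  apply Real.sqrt_le_iff.mpr
  refine ⟨by positivity, ?_⟩
  calc C ^ 2 * L ≤ (2 ^ (2 * (M + 12) + 1) * (4 * 2 ^ 64 * A)) * (5 * A) := by gcongr
    _ = (2 ^ (M + 12)) ^ 2 * (5 * 2 ^ 67) * A ^ 2 := by
        rw [pow_succ, ← pow_mul, mul_comm (M + 12) 2]; ring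
    _ ≤ (2 ^ (M + 12)) ^ 2 * (2 ^ 70) * A ^ 2 := by
        gcongr; norm_num
    _ = (2 ^ (M + 12) * 2 ^ 35 * A) ^ 2 := by ring

/-- Numerics of `mean_W`. -/
theorem num_W {A L F : ℝ} (hA : 0 ≤ A) (hL0 : 0 ≤ L) (hF : 0 ≤ F) (hL : L ≤ 5 * A)
    (h : F ≤ 2 ^ 26 * A) : √L * √(2 ^ 57 * F) ≤ 2 ^ 43 * A := by
  rw [← Real.sqrt_mul hL0]
  apply Real.sqrt_le_iff.mpr
  refine ⟨by positivity, ?_⟩
  calc L * (2 ^ 57 * F) ≤ (5 * A) * (2 ^ 57 * (2 ^ 26 * A)) := by gcongr
    _ = 5 * 2 ^ 83 * A ^ 2 := by ring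
    _ ≤ 2 ^ 86 * A ^ 2 := by
        apply mul_le_mul_of_nonneg_right _ (by positivity)
        norm_num
    _ = (2 ^ 43 * A) ^ 2 := by ring

/-- `L ≤ 2 ^ e` implies `√L ≤ 2 ^ e`. -/
theorem sqrt_le_two_pow {L : ℝ} (e : ℕ) (h : L ≤ 2 ^ e) : √L ≤ 2 ^ e := by
  apply Real.sqrt_le_iff.mpr
  refine ⟨by positivity, h.trans ?_⟩
  rw [← pow_mul]
  exact pow_le_pow_right₀ (by norm_num) (by omega)

/-- FM-A6 (the sums of the filler with the older elements). -/
theorem mean_O {a u e κ w c : ℕ → ℕ} (h : MTow a u e κ w c) (k n : ℕ) (O : Finset ℕ)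
    (hO : ∀ o ∈ O, o < 2 ^ (4 * a k + 8 * u k)) (hr : ∀ n, repF O n ≤ 4 * Cs * a k) :
    ∑ x ∈ (range (2 ^ LR a u e k)).filter (fun x => 2 ^ zR a u k ≤ x ∧ x ≤ n ∧ n - x ∈ O),
      dens (LR a u e k) x ≤ 2 ^ 49 * a k := by
  have he := h.tow.e300 k
  have heu := h.tow.eu k
  have hua := h.tow.ua k
  obtain ⟨M, hM⟩ : ∃ M, M + 12 = 2 * a k + 4 * u k := ⟨2 * a k + 4 * u k - 12, by omega⟩
  have hzR : zR a u k = 2 * M := by simp only [zR]; omega
  have hLR5 : LR a u e k ≤ 5 * a k := by simp only [LR, thT]; omega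
  set F := (range (2 ^ LR a u e k)).filter (fun x => 2 ^ zR a u k ≤ x ∧ x ≤ n ∧ n - x ∈ O)
    with hF
  have hcard : F.card ≤ O.card := by
    apply card_le_card_of_injOn (fun x => n - x)
    · intro x hx
      simp only [hF, coe_filter, mem_range, Set.mem_ofPred_eq] at hx
      exact hx.2.2.2
    · intro x hx y hy hxy
      simp only [hF, coe_filter, mem_range, Set.mem_ofPred_eq] at hx hy
      simp only at hxy
      omega
  have hsq := card_sq_le O (4 * a k + 8 * u k) (4 * Cs * a k) hO hr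
  have hdens : ∀ x ∈ F, dens (LR a u e k) x ≤ 4 * √(LR a u e k) / 2 ^ M := by
    intro x hx
    rw [hF, mem_filter] at hx
    have := dens_le_of_log (L := LR a u e k) hx.2.1
    rwa [hzR, show 2 * M / 2 = M by omega] at this
  obtain ⟨cF, hcF⟩ : ∃ cF, cF = F.card := ⟨_, rfl⟩
  rw [← hcF] at hcard
  have hmain : (cF : ℝ) * √(LR a u e k) ≤ 2 ^ (M + 12) * 2 ^ 35 * a k := by
    have h1 : ((LR a u e k : ℕ) : ℝ) ≤ 5 * a k := by exact_mod_cast hLR5
    have h3 : cF ^ 2 ≤ 2 ^ (2 * (M + 12) + 1) * (4 * Cs * a k) := by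
      refine (Nat.pow_le_pow_left hcard 2).trans (hsq.trans (le_of_eq ?_))
      rw [show 4 * a k + 8 * u k = 2 * (M + 12) by omega]
    have h4 : (Cs : ℝ) = 2 ^ 64 := by unfold Cs; norm_num
    have h5 : ((cF ^ 2 : ℕ) : ℝ) ≤ ((2 ^ (2 * (M + 12) + 1) * (4 * Cs * a k) : ℕ) : ℝ) :=
      Nat.cast_le.mpr h3
    rw [Nat.cast_pow, Nat.cast_mul, Nat.cast_pow, Nat.cast_mul, Nat.cast_mul, h4] at h5
    exact num_O M (Nat.cast_nonneg _) (Nat.cast_nonneg _) (Nat.cast_nonneg _) h1 h5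
  calc ∑ x ∈ F, dens (LR a u e k) x ≤ ∑ x ∈ F, 4 * √(LR a u e k) / 2 ^ M := sum_le_sum hdens
    _ = (4 / 2 ^ M) * ((cF : ℝ) * √(LR a u e k)) := by
        rw [sum_const, nsmul_eq_mul, hcF]; ring
    _ ≤ (4 / 2 ^ M) * (2 ^ (M + 12) * 2 ^ 35 * a k) := by gcongr
    _ = 2 ^ 49 * a k := by
        rw [pow_add]; field_simp; norm_num

/-- FM-A7 (the sums of the filler with the world). -/
theorem mean_W {a u e κ w c : ℕ → ℕ} (h : MTow a u e κ w c) (k n : ℕ) (W : Finset ℕ)
    (hmid : ∀ y h', 2 ^ (4 * a k + 4) ≤ h' → h' ≤ 2 ^ (4 * a k + thT u e k + 13) →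
      (win W y h').card ^ 2 * 2 ^ (4 * a k + thT u e k) ≤ 2 ^ 57 * h' ^ 2 * Fs u k) :
    ∑ x ∈ (range (2 ^ LR a u e k)).filter (fun x => 2 ^ zR a u k ≤ x ∧ x ≤ n ∧ n - x ∈ W),
      dens (LR a u e k) x ≤ 2 ^ 54 * a k := by
  have he := h.tow.e300 k
  have heu := h.tow.eu k
  have hua := h.tow.ua k
  have huu := h.tow.uu k
  have h42 := h.u42 k
  obtain ⟨M, hM⟩ : ∃ M, M = 2 * a k + 4 * u k + 32 * e k := ⟨_, rfl⟩
  have hLR : LR a u e k = 2 * (M + 6) := by simp only [LR, thT]; omega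
  have hzR : 4 * a k + 4 ≤ zR a u k := by simp only [zR]; omega
  have h2M : 4 * a k + thT u e k = 2 * M := by simp only [thT]; omega
  have hLR5 : LR a u e k ≤ 5 * a k := by simp only [LR, thT]; omega
  have hFs : Fs u k ≤ 2 ^ 26 * a k := by
    have h1 : laT u k + 1 ≤ 14 * u k := by simp only [laT]; omega
    calc Fs u k = 2 ^ 64 * (laT u k + 1) := rfl
      _ ≤ 2 ^ 64 * (14 * u k) := Nat.mul_le_mul_left _ h1
      _ = 14 * 2 ^ 22 * (2 ^ 42 * u k) := by ring
      _ ≤ 14 * 2 ^ 22 * a k := Nat.mul_le_mul_left _ h42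
      _ ≤ 2 ^ 26 * a k := by
          apply Nat.mul_le_mul_right; norm_num
  set F := (range (2 ^ LR a u e k)).filter (fun x => 2 ^ zR a u k ≤ x ∧ x ≤ n ∧ n - x ∈ W)
    with hF
  obtain ⟨Q, hQ⟩ : ∃ Q : ℝ, Q = 2 ^ 57 * Fs u k := ⟨_, rfl⟩
  have hQ0 : 0 ≤ Q := by rw [hQ]; exact mul_nonneg (by norm_num) (Nat.cast_nonneg _)
  obtain ⟨G, hG⟩ : ∃ G : ℝ, G = √Q := ⟨_, rfl⟩
  have hG0 : 0 ≤ G := by rw [hG]; exact Real.sqrt_nonneg _
  -- the contribution of one dyadic block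
  have hblock : ∀ l ∈ range (2 * (M + 6)),
      ∑ x ∈ F.filter (fun x => Nat.log 2 x = l), dens (LR a u e k) x ≤
        (4 * √(LR a u e k) * G / 2 ^ M) * 2 ^ (l - l / 2) := by
    intro l hl
    rw [mem_range] at hl
    have hnn : 0 ≤ (4 * √(LR a u e k) * G / 2 ^ M) * (2 : ℝ) ^ (l - l / 2) := by positivity
    by_cases hlz : l < zR a u k
    · have hem : F.filter (fun x => Nat.log 2 x = l) = ∅ := by
        rw [filter_eq_empty_iff]
        intro x hx hlog
        rw [hF, mem_filter] at hx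
        have : zR a u k ≤ Nat.log 2 x := Nat.le_log_of_pow_le (by norm_num) hx.2.1
        omega
      rw [hem, sum_empty]
      exact hnn
    · push Not at hlz
      have hcard : (F.filter (fun x => Nat.log 2 x = l)).card ≤
          (win W (n + 1 - 2 ^ (l + 1)) (2 ^ l)).card := by
        apply card_le_card_of_injOn (fun x => n - x)
        · intro x hx
          simp only [hF, coe_filter, mem_filter, mem_range, Set.mem_ofPred_eq] at hx
          obtain ⟨⟨hx1, hx2, hx3, hx4⟩, hx5⟩ := hx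
          have hx0 : x ≠ 0 := by
            intro h0
            rw [h0] at hx2
            have : 0 < 2 ^ zR a u k := by positivity
            omega
          have hlo : 2 ^ l ≤ x := by rw [← hx5]; exact Nat.pow_log_le_self 2 hx0
          have hhi : x < 2 ^ (l + 1) := by
            rw [← hx5]; exact Nat.lt_pow_succ_log_self (by norm_num) x
          simp only [win, coe_filter, Set.mem_ofPred_eq]
          refine ⟨hx4, ?_, ?_⟩
          · omega
          · rw [pow_succ] at hhi ⊢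
            omega
        · intro x hx y hy hxy
          simp only [hF, coe_filter, mem_filter, mem_range, Set.mem_ofPred_eq] at hx hy
          simp only at hxy
          omega
      have hm := hmid (n + 1 - 2 ^ (l + 1)) (2 ^ l)
        (Nat.pow_le_pow_right (by norm_num) (by omega))
        (Nat.pow_le_pow_right (by norm_num) (by omega))
      rw [h2M] at hm
      set c := (win W (n + 1 - 2 ^ (l + 1)) (2 ^ l)).card with hc
      have hm' : ((c : ℝ) * 2 ^ M) ^ 2 ≤ Q * ((2 : ℝ) ^ l) ^ 2 := by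
        rw [hQ]
        have : ((c ^ 2 * 2 ^ (2 * M) : ℕ) : ℝ) ≤ ((2 ^ 57 * (2 ^ l) ^ 2 * Fs u k : ℕ) : ℝ) := by
          exact_mod_cast hm
        push_cast at this
        calc ((c : ℝ) * 2 ^ M) ^ 2 = (c : ℝ) ^ 2 * 2 ^ (2 * M) := by
              rw [mul_pow, ← pow_mul, mul_comm M 2]
          _ ≤ _ := this
          _ = _ := by ring
      have hm'' : (c : ℝ) * 2 ^ M ≤ G * 2 ^ l := by
        have h1 := Real.sqrt_le_sqrt hm'
        rw [Real.sqrt_sq (by positivity), Real.sqrt_mul hQ0, Real.sqrt_sq (by positivity),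
          ← hG] at h1
        exact h1
      have hcc : (c : ℝ) ≤ G * 2 ^ l / 2 ^ M := by
        rw [le_div_iff₀ (by positivity)]
        exact hm''
      calc ∑ x ∈ F.filter (fun x => Nat.log 2 x = l), dens (LR a u e k) x
          ≤ ∑ x ∈ F.filter (fun x => Nat.log 2 x = l), (4 * √(LR a u e k) / 2 ^ (l / 2)) := by
            apply sum_le_sum
            intro x hx
            rw [mem_filter, hF, mem_filter] at hx
            apply dens_le_of_log
            rw [← hx.2]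
            apply Nat.pow_log_le_self
            intro h0
            rw [h0] at hx
            have : 0 < 2 ^ zR a u k := by positivity
            omega
        _ = (F.filter (fun x => Nat.log 2 x = l)).card * (4 * √(LR a u e k) / 2 ^ (l / 2)) := by
            rw [sum_const, nsmul_eq_mul]
        _ ≤ (G * 2 ^ l / 2 ^ M) * (4 * √(LR a u e k) / 2 ^ (l / 2)) := by
            apply mul_le_mul_of_nonneg_right _ (by positivity)
            exact le_trans (by exact_mod_cast hcard) hcc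
        _ = (4 * √(LR a u e k) * G / 2 ^ M) * 2 ^ (l - l / 2) := by
            have : (2 : ℝ) ^ l = 2 ^ (l - l / 2) * 2 ^ (l / 2) := by
              rw [← pow_add]; congr 1; omega
            rw [this]
            field_simp
  have hmaps : ∀ x ∈ F, Nat.log 2 x ∈ range (2 * (M + 6)) := by
    intro x hx
    rw [hF, mem_filter, mem_range] at hx
    rw [mem_range, ← hLR]
    have hx0 : x ≠ 0 := by
      intro h0
      rw [h0] at hx
      have : 0 < 2 ^ zR a u k := by positivity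
      omega
    exact Nat.log_lt_of_lt_pow hx0 hx.1
  rw [← sum_fiberwise_of_maps_to hmaps]
  calc ∑ l ∈ range (2 * (M + 6)), ∑ x ∈ F.filter (fun x => Nat.log 2 x = l), dens (LR a u e k) x
      ≤ ∑ l ∈ range (2 * (M + 6)), (4 * √(LR a u e k) * G / 2 ^ M) * (2 : ℝ) ^ (l - l / 2) :=
        sum_le_sum hblock
    _ = (4 * √(LR a u e k) * G / 2 ^ M) * ∑ l ∈ range (2 * (M + 6)), (2 : ℝ) ^ (l - l / 2) := by
        rw [mul_sum]
    _ ≤ (4 * √(LR a u e k) * G / 2 ^ M) * (3 * 2 ^ (M + 6)) :=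
        mul_le_mul_of_nonneg_left (sum_pow_half _) (by positivity)
    _ = 768 * (√(LR a u e k) * G) := by
        rw [pow_add]
        field_simp
        ring
    _ ≤ 768 * (2 ^ 43 * a k) := by
        apply mul_le_mul_of_nonneg_left _ (by norm_num)
        rw [hG, hQ]
        have h1 : ((LR a u e k : ℕ) : ℝ) ≤ 5 * a k := by exact_mod_cast hLR5
        have h2 : ((Fs u k : ℕ) : ℝ) ≤ 2 ^ 26 * a k := by exact_mod_cast hFs
        exact num_W (Nat.cast_nonneg _) (Nat.cast_nonneg _) (Nat.cast_nonneg _) h1 h2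
    _ ≤ 2 ^ 54 * a k := by
        have : (0 : ℝ) ≤ a k := Nat.cast_nonneg _
        rw [← mul_assoc]
        exact mul_le_mul_of_nonneg_right (by norm_num) this


/-- FM-A8 (far above the gap, with decay in the distance). -/
theorem mean_far3 {a u e κ w c : ℕ → ℕ} (h : MTow a u e κ w c) (k n : ℕ) (W : Finset ℕ)
    (hn : 2 ^ (4 * a k + thT u e k + 128 * e k) ≤ n)
    (hn' : n < 2 ^ (4 * a (k + 1) + 8 * u (k + 1) + 1)) (hwn : WinLe W (2 ^ wA a w k)) :
    ∑ x ∈ (range (2 ^ LR a u e k)).filter (fun x => 2 ^ zR a u k ≤ x ∧ x ≤ n ∧ n - x ∈ W),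
      dens (LR a u e k) x ≤ 1 / 2 ^ (e k + dR a u e k n / 2) := by
  have he := h.tow.e300 k
  have heu := h.tow.eu k
  have hua := h.tow.ua k
  have huu := h.tow.uu k
  have hst := h.tow.step k
  have h20 := h.tow.h20 k
  have hw := h.hw k
  obtain ⟨M, hM⟩ : ∃ M, M + 12 = 2 * a k + 4 * u k := ⟨2 * a k + 4 * u k - 12, by omega⟩
  have hzR : zR a u k = 2 * M := by simp only [zR]; omega
  have hLR : LR a u e k = 2 * M + 64 * e k + 36 := by simp only [LR, thT]; omega
  have hLR5 : LR a u e k ≤ 5 * a k := by simp only [LR, thT]; omega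
  have hn0 : n ≠ 0 := by
    have : 0 < 2 ^ (4 * a k + thT u e k + 128 * e k) := by positivity
    omega
  obtain ⟨l, hl⟩ : ∃ l, l = Nat.log 2 n := ⟨_, rfl⟩
  have hl1 : 2 ^ l ≤ n := by rw [hl]; exact Nat.pow_log_le_self 2 hn0
  have hl2 : 4 * a k + thT u e k + 128 * e k ≤ l := by
    rw [hl]; exact Nat.le_log_of_pow_le (by norm_num) hn
  have hl3 : l < 4 * a (k + 1) + 8 * u (k + 1) + 1 := by
    rw [hl]; exact Nat.log_lt_of_lt_pow hn0 hn'
  obtain ⟨d, hd⟩ : ∃ d, d = dR a u e k n := ⟨_, rfl⟩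
  have hd' : l = 4 * a k + thT u e k + 128 * e k + d := by
    rw [hd, dR, ← hl]; omega
  simp only [thT] at hl2 hd'
  have hLl : 2 ^ LR a u e k ≤ 2 ^ (l - 1) := Nat.pow_le_pow_right (by norm_num) (by omega)
  have hll : 2 ^ l = 2 * 2 ^ (l - 1) := by
    rw [← pow_succ']; congr 1; omega
  set F := (range (2 ^ LR a u e k)).filter (fun x => 2 ^ zR a u k ≤ x ∧ x ≤ n ∧ n - x ∈ W)
    with hF
  obtain ⟨y, hy⟩ : ∃ y, y + 2 ^ LR a u e k = n + 1 := ⟨n + 1 - 2 ^ LR a u e k, by omega⟩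
  have hcard : F.card ≤ (win W y (2 ^ LR a u e k)).card := by
    apply card_le_card_of_injOn (fun x => n - x)
    · intro x hx
      simp only [hF, coe_filter, mem_range, Set.mem_ofPred_eq] at hx
      simp only [win, coe_filter, Set.mem_ofPred_eq]
      refine ⟨hx.2.2.2, ?_, ?_⟩ <;> omega
    · intro x hx z hz hxz
      simp only [hF, coe_filter, mem_range, Set.mem_ofPred_eq] at hx hz
      simp only at hxz
      omega
  have hy1 : 2 ^ (l - 1) ≤ y := by omega
  have hy2 : l - 1 ≤ Nat.log 2 y := Nat.le_log_of_pow_le (by norm_num) hy1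
  obtain ⟨μ, hμ⟩ : ∃ μ, μ = Nat.log 2 y / 2 := ⟨_, rfl⟩
  have hwin := hwn y (2 ^ LR a u e k)
  rw [← hμ] at hwin
  have hμ2 : M + 12 + 96 * e k + d / 2 ≤ μ + 1 := by omega
  have hwA : wA a w k + 20 ≤ 20 * e k := by simp only [wA]; omega
  -- the main numerical estimate
  obtain ⟨cF, hcF⟩ : ∃ cF, cF = F.card := ⟨_, rfl⟩
  rw [← hcF] at hcard
  have hnum : cF * 2 ^ (2 + e k + (e k + d / 2)) ≤ 2 ^ M := by
    have h1 : cF * 2 ^ (2 + e k + (e k + d / 2)) * 2 ^ μ ≤ 2 ^ M * 2 ^ μ := by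
      calc cF * 2 ^ (2 + e k + (e k + d / 2)) * 2 ^ μ
          = 2 ^ (2 + e k + (e k + d / 2)) * (cF * 2 ^ μ) := by ring
        _ ≤ 2 ^ (2 + e k + (e k + d / 2)) * (2 ^ wA a w k * (2 ^ LR a u e k + 2 ^ μ)) := by
            apply Nat.mul_le_mul_left
            exact (Nat.mul_le_mul_right _ hcard).trans hwin
        _ = 2 ^ (2 + e k + (e k + d / 2) + wA a w k + LR a u e k)
            + 2 ^ (2 + e k + (e k + d / 2) + wA a w k + μ) := by
            simp only [pow_add]; ring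
        _ ≤ 2 ^ (M - 1 + μ) + 2 ^ (M - 1 + μ) := by
            apply Nat.add_le_add
            · exact Nat.pow_le_pow_right (by norm_num) (by omega)
            · exact Nat.pow_le_pow_right (by norm_num) (by omega)
        _ = 2 ^ M * 2 ^ μ := by
            rw [← two_mul, ← pow_succ', ← pow_add]; congr 1; omega
    exact Nat.le_of_mul_le_mul_right h1 (by positivity)
  have hsq : √(LR a u e k : ℝ) ≤ 2 ^ e k := by
    have h1 : ((LR a u e k : ℕ) : ℝ) ≤ 2 ^ e k := by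
      have : LR a u e k ≤ 2 ^ e k := by omega
      exact_mod_cast this
    exact sqrt_le_two_pow _ h1
  have hdens : ∀ x ∈ F, dens (LR a u e k) x ≤ 4 * 2 ^ e k / 2 ^ M := by
    intro x hx
    rw [hF, mem_filter] at hx
    have := dens_le_of_log (L := LR a u e k) hx.2.1
    rw [hzR, show 2 * M / 2 = M by omega] at this
    refine this.trans ?_
    gcongr
  rw [← hd]
  calc ∑ x ∈ F, dens (LR a u e k) x ≤ ∑ x ∈ F, 4 * 2 ^ e k / (2 : ℝ) ^ M := sum_le_sum hdens
    _ = (cF : ℝ) * (4 * 2 ^ e k / 2 ^ M) := by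
        rw [sum_const, nsmul_eq_mul, hcF]
    _ ≤ 1 / 2 ^ (e k + d / 2) := by
        have h1 : (cF : ℝ) * 2 ^ (2 + e k + (e k + d / 2)) ≤ 2 ^ M := by exact_mod_cast hnum
        rw [le_div_iff₀ (by positivity), mul_div_assoc', div_mul_eq_mul_div,
          div_le_one (by positivity)]
        refine le_trans (le_of_eq ?_) h1
        rw [pow_add, pow_add]; ring

end Pool.Agent.Helper38.FM
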